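import Pool.Agent.BEL.StmtsE
import Pool.Agent.Helper69_BEL.Pic

/-!
# Squad BEL, row FLE: existence of the flow for a Lipschitz nonlinearity
-/

open MeasureTheory Filter Topology Set
open scoped InnerProductSpace ENNReal NNReal

namespace Pool.Agent.BEL.H68

theorem norm_P2_le {H : Type} [NormedAddCommGroup H] [InnerProductSpace ℝ H] (z : KK H) :
    ‖P2 z‖ ≤ ‖z‖ := by
  have h := WithLp.prod_norm_sq_eq_of_L2 z
  have h1 : ‖z.snd‖ ^ 2 ≤ ‖z‖ ^ 2 := by
    rw [h]
    nlinarith [sq_nonneg ‖z.fst‖]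
  exact (sq_le_sq₀ (norm_nonneg _) (norm_nonneg _)).1 h1

theorem fle (hq : GrqStmt) : FleStmt := by
  intro H _ _ _ κ b om W F K V hG hF
  obtain ⟨-, -, hn, -, hct, hct2, -, hinj⟩ := hq H κ b om W hG
  have hdist : ∀ t (x y : KK H), dist (W t x) (W t y) = dist x y := by
    intro t x y
    rw [dist_eq_norm, dist_eq_norm, ← map_sub, hn]
  have hLip : ∀ t, LipschitzWith K fun x => -(W (-t) (inj (F (P2 (W t x))))) := by
    intro t
    apply LipschitzWith.of_dist_le_mul
    intro x y
    rw [dist_neg_neg, hdist, dist_eq_norm, ← map_sub, hinj, ← dist_eq_norm]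
    refine (hF.dist_le_mul _ _).trans ?_
    refine mul_le_mul_of_nonneg_left ?_ K.2
    rw [dist_eq_norm, ← map_sub]
    refine (norm_P2_le _).trans ?_
    rw [← dist_eq_norm, hdist]
  have hCont : ∀ x, Continuous fun t => -(W (-t) (inj (F (P2 (W t x))))) := by
    intro x
    have e1 : Continuous fun t => inj (F (P2 (W t x))) :=
      inj.continuous.comp (hF.continuous.comp (P2.continuous.comp (hct x)))
    have e2 : Continuous fun t : ℝ => W t (inj (F (P2 (W (-t) x)))) := by
      exact hct2 (fun t => inj (F (P2 (W (-t) x)))) (e1.comp continuous_neg)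
    have e3 := (e2.comp continuous_neg).neg
    simp only [Function.comp_def, neg_neg] at e3
    exact e3
  obtain ⟨α, h0, h1⟩ := Pool.Agent.BEL.H69.pic
    (fun t x => -(W (-t) (inj (F (P2 (W t x)))))) K hLip hCont V
  exact ⟨α, h0, h1⟩

end Pool.Agent.BEL.H68
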