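import Pool.Agent.BEL.StmtsE

/-!
# Squad BEL, row CAM: almost monotonicity of two truncations
-/

open MeasureTheory Filter Topology Set
open scoped InnerProductSpace ENNReal NNReal

namespace Pool.Agent.BEL.H68

theorem cam (hN : NemStmt) (hG : GlpStmt) : CamStmt := by
  intro X _ μ a al p l l' v w ha hal hl hll hp hv hw
  obtain ⟨-, gLip, -, g0, -, -, -, -, gineq⟩ := hG a al ha hal
  have hl' : 0 ≤ l' := hl.le.trans hll
  obtain ⟨-, -, -, i1, j1, -⟩ := hN X μ (gl a al l) _ (gLip l hl.le) (g0 l)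
  obtain ⟨-, -, -, i2, j2, -⟩ := hN X μ (gl a al l') _ (gLip l' hl') (g0 l')
  have hp0 : 0 < p := by linarith
  have hpp : (ENNReal.ofReal p).toReal = p := ENNReal.toReal_ofReal hp0.le
  have iv : Integrable (fun x => |v x| ^ p) μ := by
    have := hv.integrable_norm_rpow (by simpa using hp0) ENNReal.ofReal_ne_top
    rw [hpp] at this
    exact this
  have iw : Integrable (fun x => |w x| ^ p) μ := by
    have := hw.integrable_norm_rpow (by simpa using hp0) ENNReal.ofReal_ne_top
    rw [hpp] at this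
    exact this
  have hsub := Lp.coeFn_sub v w
  have e1 : ⟪nem μ (gl a al l) v - nem μ (gl a al l') w, v - w⟫_ℝ =
      ∫ x, (gl a al l (v x) - gl a al l' (w x)) * (v x - w x) ∂μ := by
    rw [inner_sub_left, i1, i2, ← integral_sub (j1 v (v - w)) (j2 w (v - w))]
    refine integral_congr_ae ?_
    filter_upwards [hsub] with x hx
    rw [hx, Pi.sub_apply]
    ring
  have i3 : Integrable (fun x => (gl a al l (v x) - gl a al l' (w x)) * (v x - w x)) μ := by
    refine ((j1 v (v - w)).sub (j2 w (v - w))).congr ?_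
    filter_upwards [hsub] with x hx
    rw [Pi.sub_apply, hx, Pi.sub_apply]
    ring
  have e2 : -(3 * a * l ^ (al + 2 - p) * (∫ x, |v x| ^ p ∂μ + ∫ x, |w x| ^ p ∂μ)) =
      ∫ x, -(3 * a * l ^ (al + 2 - p) * (|v x| ^ p + |w x| ^ p)) ∂μ := by
    rw [integral_neg, integral_const_mul, integral_add iv iw]
  rw [e1, e2]
  refine integral_mono (((iv.add iw).const_mul _).neg) i3 ?_
  intro x
  exact gineq l l' p (v x) (w x) hl hll hp

end Pool.Agent.BEL.H68
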